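import Pool.Agent.Lib.MP_b59c01_an.Main

/-!
# Arcs in quadratic Siegel Julia sets

For every Siegel disk `S` of a quadratic polynomial `z ^ 2 + c`: if two distinct points of the boundary accessible from
`S` are joined by an arc in the Julia set, then the boundary of `S` is a Jordan curve.
-/

namespace Pool.Agent.Results.MP_b59c01_an.ArcDichotomy

open Set Pool.SiegelArc

/-- Let `S` be a Siegel disk of `z ^ 2 + c`. Either the boundary of `S` is a Jordan curve, or the set of the points of the
boundary which are accessible from `S` is uncountable and no two distinct ones are joined by an arc in the Julia set. -/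
theorem result : ∀ (c : ℂ) (α : ℝ) (S : Set ℂ), IsSiegelDisk c α S →
    (IsJordanCurve (frontier S) ∨ (¬ {x | Accessible S x}.Countable ∧
      ∀ x y, Accessible S x → Accessible S y → x ≠ y → ¬ ArcJoined (julia c) x y)) :=
  fun _ _ _ h => (main h).1

end Pool.Agent.Results.MP_b59c01_an.ArcDichotomy
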